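import Mathlib

set_option autoImplicit false

namespace Pool.Agent.Results.MP_ea4c65_al.Neg

open SimpleGraph Multiplicative

/-- There is a strictly increasing path to infinity from `y`, lengths measured from `o`. -/
def Ray {V : Type} (Γ : SimpleGraph V) (o y : V) : Prop :=
  ∃ π : ℕ → V, π 0 = y ∧ ∀ i, Γ.Adj (π i) (π (i + 1)) ∧ Γ.dist o (π i) < Γ.dist o (π (i + 1))

/-- Depth of the shadow of `x`. -/
noncomputable def sd {V : Type} (Γ : SimpleGraph V) (o x : V) : ℕ :=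
  sInf {k | ∃ y, Γ.dist o y + k = Γ.dist o x ∧ Ray Γ o y ∧
    ∃ p : Γ.Walk o x, p.length = Γ.dist o x ∧ y ∈ p.support}

abbrev G := Multiplicative (ℤ × ZMod 7)

def S : Finset G := {ofAdd (1, 0), ofAdd (1, 1), ofAdd (0, 2)}

abbrev Γ : SimpleGraph G := mulCayley (S : Set G)

instance : DecidableRel Γ.Adj := fun u v => decidable_of_iff _ (mulCayley_adj _ u v).symm

lemma a1 {u v : G} (h : Γ.Adj u v) : |v.toAdd.1| ≤ |u.toAdd.1| + 1 := by
  have : ∀ s ∈ S, s.toAdd.1 = 0 ∨ s.toAdd.1 = 1 := by decide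
  rcases ((mulCayley_adj ..).1 h).2 with h | h <;> have := this _ h <;>
    simp only [toAdd_mul, toAdd_inv, Prod.fst_add, Prod.fst_neg] at this <;> grind

lemma lo {u v : G} (p : Γ.Walk u v) : |v.toAdd.1| ≤ |u.toAdd.1| + p.length := by
  induction p with
  | nil => simp
  | cons h _ ih => have := a1 h; rw [Walk.length_cons]; omega

def P (g : ℤ × ZMod 7) (n : ℕ) : Prop := ∃ p : Γ.Walk 1 (ofAdd g), p.length = n

lemma st {g h : ℤ × ZMod 7} {n : ℕ} (hp : P g n) (h1 : g.1 ≠ h.1)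
    (h2 : ofAdd (-g + h) ∈ S ∨ ofAdd (-h + g) ∈ S) : P h (n + 1) := by
  obtain ⟨p, rfl⟩ := hp
  exact ⟨p.concat ((mulCayley_adj ..).2 ⟨fun e => h1 (congrArg (·.toAdd.1) e), h2⟩), by simp⟩

lemma p1 (n : ℕ) : ∀ j ≤ n, P (n, j) n ∧ P (-n, -j) n := by
  induction n with
  | zero => rintro _ ⟨⟩; exact ⟨⟨.nil, rfl⟩, .nil, rfl⟩
  | succ n ih =>
    intro j hj
    rcases j with _ | j
    · exact ⟨st (ih 0 n.zero_le).1 (by simp) (by simp [S]), st (ih 0 n.zero_le).2 (by simp)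
        (by simp [S])⟩
    · exact ⟨st (ih j (by omega)).1 (by simp) (by simp [S]), st (ih j (by omega)).2 (by simp)
        (by simp [S])⟩

lemma p2 (c : ZMod 7) (m : ℕ) : P (6 - m, c) (6 + m) := by
  induction m with
  | zero => simpa using (p1 6 c.val (by have := c.val_lt; omega)).1
  | succ m ih => exact st ih (by simp) (.inr (by simp [S]))

lemma up (g : G) : ∃ n, P g.toAdd n ∧ (n ≤ 18 ∨ (n : ℤ) = |g.toAdd.1|) := by
  obtain ⟨k, c⟩ := g
  change ∃ n, P (k, c) n ∧ (n ≤ 18 ∨ (n : ℤ) = |k|)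
  by_cases h : |k| < 6
  · obtain ⟨m, rfl, hm⟩ : ∃ m : ℕ, k = 6 - m ∧ m ≤ 12 := ⟨(6 - k).toNat, by grind⟩
    exact ⟨_, p2 c m, .inl (by omega)⟩
  obtain ⟨n, rfl | rfl⟩ := k.eq_nat_or_neg
  · exact ⟨n, by simpa using (p1 n c.val (by have := c.val_lt; grind)).1, by simp⟩
  · exact ⟨n, by simpa using (p1 n (-c).val (by have := (-c).val_lt; grind)).2, by simp⟩

theorem result : ∃ (G : Type) (_ : Group G) (S : Finset G) (x : G), Infinite G ∧
    Subgroup.closure (S : Set G) = ⊤ ∧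
    ((mulCayley (S : Set G)).dist 1 x + 1) / 2 < sd (mulCayley (S : Set G)) 1 x := by
  have r : ∀ g, Γ.Reachable 1 g := fun g => let ⟨_, ⟨p, _⟩, _⟩ := up g; ⟨p⟩
  let q : Γ.Walk 1 (ofAdd (0, 4)) := .cons (v := ofAdd (0, 2)) (by decide) (.cons (by decide) .nil)
  have d : Γ.dist 1 (ofAdd (0, 4)) = 2 := (dist_le q).antisymm
    ((r _).one_lt_dist_of_ne_of_not_adj (by decide) (by decide))
  refine ⟨G, inferInstance, S, ofAdd (0, 4), inferInstance, eq_top_iff.2 fun g _ => ?_, ?_⟩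
  · obtain ⟨p⟩ := r g
    have : ∀ u v (p : Γ.Walk u v), u ∈ Subgroup.closure (S : Set G) →
        v ∈ Subgroup.closure (S : Set G) := fun u v p => by
      induction p with
      | nil => exact id
      | cons h _ ih =>
        refine fun hu => ih ?_
        rcases ((mulCayley_adj ..).1 h).2 with h | h
        · simpa using mul_mem hu (Subgroup.subset_closure h)
        · simpa using mul_mem hu (inv_mem (Subgroup.subset_closure h))
    exact this _ _ p (one_mem _)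
  have e : ∀ n : ℕ, Γ.dist 1 (ofAdd (n, 0)) = n := fun n => by
    obtain ⟨p, hp⟩ := (p1 n 0 n.zero_le).1
    obtain ⟨p', hp'⟩ := (r (ofAdd (n, 0))).exists_walk_length_eq_dist
    have h1 := dist_le p
    have h2 := lo p'
    simp at h1 h2
    omega
  obtain ⟨y, h1, ⟨π, rfl, h2⟩, p, h3, h4⟩ := Nat.sInf_mem (s := {k | ∃ y, Γ.dist 1 y + k =
      Γ.dist 1 (ofAdd (0, 4)) ∧ Ray Γ 1 y ∧ ∃ p : Γ.Walk 1 (ofAdd (0, 4)),
      p.length = Γ.dist 1 (ofAdd (0, 4)) ∧ y ∈ p.support}) ⟨2, 1, by simp [d],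
    ⟨fun n => ofAdd (n, 0), rfl, fun n => ⟨(mulCayley_adj ..).2 ⟨by simp, .inl (by
      change ofAdd (-((n : ℤ), (0 : ZMod 7)) + _) ∈ S; simp [S])⟩, by simp only [e]; omega⟩⟩,
    q, d.symm, q.start_mem_support⟩
  by_contra hc
  change _ + sd Γ 1 (ofAdd (0, 4)) = _ at h1
  change ¬ _ < sd Γ 1 (ofAdd (0, 4)) at hc
  rw [d] at h1 h3 hc
  have h5 : 1 ≤ Γ.dist 1 (π 0) := by omega
  have h6 : (π 0).toAdd.1 = 0 := by
    cases p with
    | cons h p =>
      cases p with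
      | nil => simp at h3
      | cons h' p =>
        cases p with
        | cons => simp at h3
        | nil =>
          rename_i m
          have k : ∀ s ∈ S, (Γ.Adj s (ofAdd (0, 4)) → s.toAdd.1 = 0) ∧
              (Γ.Adj s⁻¹ (ofAdd (0, 4)) → s.toAdd.1 = 0) := by decide
          have : m.toAdd.1 = 0 := by
            rcases ((mulCayley_adj ..).1 h).2 with h | h
            · exact (k m (by simpa using h)).1 h'
            · simpa using (k m⁻¹ (by simpa using h)).2 (by simpa using h')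
          simp at h4
          rcases h4 with h4 | h4 | h4 <;> simp [h4, this]
  have h7 : ∀ i : ℕ, |(π i).toAdd.1| ≤ i ∧ i + 1 ≤ Γ.dist 1 (π i) := fun i => by
    induction i with
    | zero => simp [h5, h6]
    | succ i ih => have := a1 (h2 i).1; have := (h2 i).2; omega
  obtain ⟨n, ⟨p, rfl⟩, h8⟩ := up (π 20)
  have h9 : Γ.dist 1 (π 20) ≤ _ := dist_le p
  have := h7 20
  omega

end Pool.Agent.Results.MP_ea4c65_al.Neg
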